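import Mathlib
import Pool.Agent.N889.WU.Stm

/-!
# Project WU (helper889), part POLE (helper866): a nonconstant function has a pole

A valuation subring `A` of `L` which contains `k` but not `c` exists as `c` is transcendental over
`k`. It contains `t` or `t⁻¹`, and some `π = t - α` or `π = t⁻¹` is not a unit of `A`. The integral
closure `B` of `Oz k π` is contained in `A`, the nonunits of `A` in `B` form a maximal ideal of `B`,
and the localisation at this ideal is a place contained in `A`.
-/

set_option autoImplicit false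

open Polynomial IntermediateField

namespace Pool.Agent.N866.WU.POLE

open Pool.Agent.N889.WU

universe u

/-- valuation subrings are integrally closed -/
theorem mem_of_int {L : Type u} [Field L] (A : ValuationSubring L) {R : Type*} [CommRing R]
    (f : R →+* L) (hf : ∀ r, f r ∈ A) (x : L) (p : R[X]) (hp : p.Monic)
    (h : eval₂ f x p = 0) : x ∈ A := by
  let f' : R →+* A := f.codRestrict A hf
  have h1 : IsIntegral A x := ⟨p.map f', hp.map f', by
    rw [eval₂_map]
    exact h⟩
  obtain ⟨y, hy⟩ := IsIntegrallyClosed.isIntegral_iff.1 h1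
  rw [← hy]
  exact y.2

variable {k L : Type u} [Field k] [Field L] [Algebra k L]

/-- constants are units -/
theorem val_const (A : ValuationSubring L) (hk : ∀ a : k, algebraMap k L a ∈ A) {a : k}
    (ha : a ≠ 0) : A.valuation (algebraMap k L a) = 1 := by
  have h1 := (A.valuation_le_one_iff _).2 (hk a)
  have h2 := (A.valuation_le_one_iff _).2 (hk a⁻¹)
  refine le_antisymm h1 ?_
  have h3 : A.valuation (algebraMap k L a) * A.valuation (algebraMap k L a⁻¹) = 1 := by
    rw [← map_mul, ← map_mul, mul_inv_cancel₀ ha, map_one, map_one]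
  calc (1 : A.ValueGroup) = A.valuation (algebraMap k L a) * A.valuation (algebraMap k L a⁻¹) :=
        h3.symm
    _ ≤ A.valuation (algebraMap k L a) * 1 := mul_le_mul_right h2 _
    _ = _ := mul_one _

theorem aeval_mem (A : ValuationSubring L) (hk : ∀ a : k, algebraMap k L a ∈ A) {x : L}
    (hx : x ∈ A) (f : k[X]) : aeval x f ∈ A := by
  rw [aeval_eq_sum_range]
  refine A.toSubring.sum_mem fun i _ => ?_
  rw [Algebra.smul_def]
  exact A.toSubring.mul_mem (hk _) (A.toSubring.pow_mem hx _)

theorem aeval_lt (A : ValuationSubring L) (hk : ∀ a : k, algebraMap k L a ∈ A) {π : L}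
    (hπ : A.valuation π < 1) (f : k[X]) (h0 : f.coeff 0 = 0) : A.valuation (aeval π f) < 1 := by
  have hπA : π ∈ A := (A.valuation_le_one_iff _).1 hπ.le
  have h1 : aeval π f = aeval π f.divX * π := by
    conv_lhs => rw [← divX_mul_X_add f]
    rw [h0, map_add, map_mul, aeval_X, C_0, map_zero, add_zero]
  rw [h1, map_mul]
  calc A.valuation (aeval π f.divX) * A.valuation π ≤ 1 * A.valuation π :=
        mul_le_mul_left ((A.valuation_le_one_iff _).2 (aeval_mem A hk hπA _)) _
    _ = A.valuation π := one_mul _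
    _ < 1 := hπ

theorem aeval_eq_one (A : ValuationSubring L) (hk : ∀ a : k, algebraMap k L a ∈ A) {π : L}
    (hπ : A.valuation π < 1) (g : k[X]) (h0 : g.coeff 0 ≠ 0) : A.valuation (aeval π g) = 1 := by
  have h1 : aeval π g = aeval π (g - C (g.coeff 0)) + algebraMap k L (g.coeff 0) := by
    rw [map_sub, aeval_C, sub_add_cancel]
  have h2 : A.valuation (aeval π (g - C (g.coeff 0))) < A.valuation (algebraMap k L (g.coeff 0)) := by
    rw [val_const A hk h0]
    exact aeval_lt A hk hπ _ (by rw [coeff_sub, coeff_C_zero, sub_self])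
  rw [h1, add_comm, A.valuation.map_add_eq_of_lt_left h2, val_const A hk h0]

theorem Oz_le (A : ValuationSubring L) (hk : ∀ a : k, algebraMap k L a ∈ A) {π : L}
    (hπ : A.valuation π < 1) {x : L} (hx : x ∈ Oz k π) : x ∈ A := by
  obtain ⟨f, g, hg, h⟩ := hx
  have hπA : π ∈ A := (A.valuation_le_one_iff _).1 hπ.le
  rw [← A.valuation_le_one_iff]
  have h1 := congrArg A.valuation h
  rw [map_mul, aeval_eq_one A hk hπ g hg, mul_one] at h1
  rw [h1]
  exact (A.valuation_le_one_iff _).2 (aeval_mem A hk hπA _)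

theorem Oz_inv (A : ValuationSubring L) (hk : ∀ a : k, algebraMap k L a ∈ A) {π : L}
    (hπ : A.valuation π < 1) {x : L} (hx : x ∈ Oz k π) (hx1 : A.valuation x = 1) :
    x⁻¹ ∈ Oz k π := by
  obtain ⟨f, g, hg, h⟩ := hx
  have h1 := congrArg A.valuation h
  rw [map_mul, aeval_eq_one A hk hπ g hg, mul_one, hx1] at h1
  have hf : f.coeff 0 ≠ 0 := by
    intro h0
    have := aeval_lt A hk hπ f h0
    rw [← h1] at this
    exact lt_irrefl _ this
  have hx0 : x ≠ 0 := by
    rintro rfl
    rw [map_zero] at hx1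
    exact zero_ne_one hx1
  refine ⟨g, f, hf, ?_⟩
  rw [← h, inv_mul_cancel_left₀ hx0]

/-- The place below a valuation subring. -/
theorem exists_place [IsAlgClosed k] (hPL : S_PL.{u}) (A : ValuationSubring L)
    (hk : ∀ a : k, algebraMap k L a ∈ A) {π : L} (hπ : A.valuation π < 1) (hsep : SepFin k π) :
    ∃ A' : ValuationSubring L, IsPlace k A' ∧ ∀ x ∈ A', x ∈ A := by
  have hB : ∀ b : integralClosure (Oz k π) L, (b : L) ∈ A := by
    intro b
    obtain ⟨p, hp, h⟩ := b.2
    exact mem_of_int A (algebraMap (Oz k π) L) (fun r => Oz_le A hk hπ r.2) _ p hp h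
  let φ : integralClosure (Oz k π) L →+* A :=
    ((integralClosure (Oz k π) L).val : integralClosure (Oz k π) L →+* L).codRestrict A hB
  let m : Ideal (integralClosure (Oz k π) L) := Ideal.comap φ (IsLocalRing.maximalIdeal A)
  have hm : ∀ b : integralClosure (Oz k π) L, b ∈ m ↔ A.valuation (b : L) < 1 := by
    intro b
    show φ b ∈ IsLocalRing.maximalIdeal A ↔ _
    rw [A.valuation_lt_one_iff]
    rfl
  have hmP : m.IsPrime := Ideal.IsPrime.comap φ
  have hmax : m.IsMaximal := by
    refine Ideal.isMaximal_of_isIntegral_of_isMaximal_comap (R := Oz k π) m ?_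
    rw [Ideal.isMaximal_iff]
    refine ⟨?_, ?_⟩
    · rw [Ideal.mem_comap, map_one, hm]
      intro h
      have h1 : ((1 : integralClosure (Oz k π) L) : L) = 1 := rfl
      rw [h1, map_one] at h
      exact lt_irrefl _ h
    · intro J x _ hx hxJ
      rw [Ideal.mem_comap, hm] at hx
      have hx' : ¬ A.valuation (x : L) < 1 := hx
      have hx1 : A.valuation (x : L) = 1 :=
        le_antisymm ((A.valuation_le_one_iff _).2 (Oz_le A hk hπ x.2)) (not_lt.1 hx')
      have hx0 : (x : L) ≠ 0 := by
        intro h0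
        rw [h0, map_zero] at hx1
        exact zero_ne_one hx1
      have h2 : (⟨(x : L)⁻¹, Oz_inv A hk hπ x.2 hx1⟩ : Oz k π) * x = 1 :=
        Subtype.ext (inv_mul_cancel₀ hx0)
      rw [← h2]
      exact J.mul_mem_left _ hxJ
  obtain ⟨A', hA', h'⟩ := hPL k L π hsep m hmax
  refine ⟨A', hA', fun x hx => ?_⟩
  obtain ⟨b, r, hr, h⟩ := (h' x).1 hx
  rw [hm, not_lt] at hr
  have hr1 : A.valuation (r : L) = 1 := le_antisymm ((A.valuation_le_one_iff _).2 (hB r)) hr
  rw [← A.valuation_le_one_iff]
  have h3 := congrArg A.valuation h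
  rw [map_mul, hr1, mul_one] at h3
  rw [h3]
  exact (A.valuation_le_one_iff _).2 (hB b)

/-- a valuation subring containing the constants but not `c` -/
theorem exists_val {c : L} (hc : Transcendental k c) :
    ∃ A : ValuationSubring L, (∀ a : k, algebraMap k L a ∈ A) ∧ c ∉ A := by
  by_contra hcon
  push Not at hcon
  apply hc
  have h1 : c ∈ (⨅ V : {V : ValuationSubring L //
      (((algebraMap k L).range : Subring L) : Set L) ⊆ V.toSubring}, V.1.toSubring) := by
    rw [Subring.mem_iInf]
    intro V
    exact hcon V.1 (fun a => V.2 ⟨a, rfl⟩)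
  rw [iInf_valuationSubring_superset, Subring.closure_eq] at h1
  have h2 : IsIntegral ((algebraMap k L).range) c := h1
  obtain ⟨p, hp, h⟩ := h2
  obtain ⟨q, hq⟩ := Polynomial.map_surjective _ (algebraMap k L).rangeRestrict_surjective p
  refine ⟨q, ?_, ?_⟩
  · rintro rfl
    rw [Polynomial.map_zero] at hq
    rw [← hq] at hp
    exact hp.ne_zero rfl
  · rw [← hq, eval₂_map] at h
    exact h

theorem sep_of_eq {t π : L} (ht : SepFin k t) (h : k⟮t⟯ = k⟮π⟯) (hπ : Transcendental k π) :
    SepFin k π := by
  refine ⟨hπ, ?_, ?_⟩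
  · rw [← h]; exact ht.2.1
  · rw [← h]; exact ht.2.2

theorem sep_sub {t : L} (ht : SepFin k t) (a : k) : SepFin k (t - algebraMap k L a) := by
  refine sep_of_eq ht (le_antisymm ?_ ?_) ?_
  · rw [adjoin_simple_le_iff]
    have h1 := add_mem (mem_adjoin_simple_self k (t - algebraMap k L a))
      (k⟮t - algebraMap k L a⟯.algebraMap_mem a)
    rwa [sub_add_cancel] at h1
  · rw [adjoin_simple_le_iff]
    exact sub_mem (mem_adjoin_simple_self k t) (k⟮t⟯.algebraMap_mem a)
  · intro h
    apply ht.1
    have h1 := h.add (isAlgebraic_algebraMap (R := k) (A := L) a)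
    rwa [sub_add_cancel] at h1

theorem sep_inv {t : L} (ht : SepFin k t) : SepFin k t⁻¹ := by
  refine sep_of_eq ht (le_antisymm ?_ ?_) ?_
  · rw [adjoin_simple_le_iff]
    have h1 := inv_mem (mem_adjoin_simple_self k t⁻¹)
    rwa [inv_inv] at h1
  · rw [adjoin_simple_le_iff]
    exact inv_mem (mem_adjoin_simple_self k t)
  · intro h
    apply ht.1
    have h1 := h.inv
    rwa [inv_inv] at h1

/-- polynomials in `t` are units if all `t - α` are units -/
theorem aeval_unit [IsAlgClosed k] (A : ValuationSubring L)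
    (hk : ∀ a : k, algebraMap k L a ∈ A) {t : L}
    (h : ∀ a : k, A.valuation (t - algebraMap k L a) = 1) :
    ∀ (n : ℕ) (f : k[X]), f ≠ 0 → f.natDegree = n → A.valuation (aeval t f) = 1 := by
  intro n
  induction n with
  | zero =>
    intro f hf hn
    rw [eq_C_of_natDegree_eq_zero hn, aeval_C]
    apply val_const A hk
    intro h0
    apply hf
    rw [eq_C_of_natDegree_eq_zero hn, h0, C_0]
  | succ n ih =>
    intro f hf hn
    have hdeg : f.degree ≠ 0 := by
      intro h0
      have := natDegree_eq_zero_iff_degree_le_zero.2 h0.le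
      omega
    obtain ⟨a, ha⟩ := IsAlgClosed.exists_root f hdeg
    obtain ⟨g, hg⟩ := dvd_iff_isRoot.2 ha
    have hg0 : g ≠ 0 := by
      rintro rfl
      exact hf (by rw [hg, mul_zero])
    have hgn : g.natDegree = n := by
      have h1 := congrArg natDegree hg
      rw [natDegree_mul (X_sub_C_ne_zero a) hg0, natDegree_X_sub_C, hn] at h1
      omega
    rw [hg, map_mul, map_mul, ih g hg0 hgn, mul_one, map_sub, aeval_X, aeval_C]
    exact h a

/-- WU/POLE -/
theorem t_POLE (hPL : S_PL.{u}) : S_POLE.{u} := by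
  intro k L _ _ _ _ t ht c hc
  obtain ⟨A, hk, hcA⟩ := exists_val hc
  by_cases htA : t ∈ A
  · by_cases hex : ∃ a : k, A.valuation (t - algebraMap k L a) < 1
    · obtain ⟨a, ha⟩ := hex
      obtain ⟨A', hA', h⟩ := exists_place hPL A hk ha (sep_sub ht a)
      exact ⟨A', hA', fun hc' => hcA (h c hc')⟩
    · exfalso
      apply hcA
      push Not at hex
      have h1 : ∀ a : k, A.valuation (t - algebraMap k L a) = 1 := fun a =>
        le_antisymm ((A.valuation_le_one_iff _).2 (A.toSubring.sub_mem htA (hk a))) (hex a)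
      have h2 : ∀ x : k⟮t⟯, (x : L) ∈ A := by
        intro x
        obtain ⟨r, s, hx⟩ := (mem_adjoin_simple_iff k (x : L)).1 x.2
        rw [hx, ← A.valuation_le_one_iff, map_div₀]
        have hle : ∀ f : k[X], f ≠ 0 → A.valuation (aeval t f) = 1 := fun f hf =>
          aeval_unit A hk h1 _ f hf rfl
        by_cases hs : s = 0
        · rw [hs, map_zero, map_zero, div_zero]; exact zero_le_one
        · rw [hle s hs, div_one]
          by_cases hr : r = 0
          · rw [hr, map_zero, map_zero]; exact zero_le_one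
          · rw [hle r hr]
      have hfd : FiniteDimensional k⟮t⟯ L := ht.2.1
      obtain ⟨p, hp, h⟩ := Algebra.IsIntegral.isIntegral (R := k⟮t⟯) c
      exact mem_of_int A (algebraMap k⟮t⟯ L) h2 c p hp h
  · have hlt : A.valuation t⁻¹ < 1 := by
      rw [map_inv₀]
      have h1 : ¬ A.valuation t ≤ 1 := fun h => htA ((A.valuation_le_one_iff _).1 h)
      exact inv_lt_one_of_one_lt₀ (not_le.1 h1)
    obtain ⟨A', hA', h⟩ := exists_place hPL A hk hlt (sep_inv ht)
    exact ⟨A', hA', fun hc' => hcA (h c hc')⟩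

end Pool.Agent.N866.WU.POLE
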